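import Pool.Agent.W528.HD.Est

/-!
# Operators with the traces given by the sums, and representations
-/

set_option autoImplicit false

namespace Pool.Agent.W528.HF

open Finset Polynomial Pool.Agent.W528.HA Pool.Agent.W528.HB Pool.Agent.W528.HD

theorem g_op (hGN : GN) (hONE : ONE) (hGE : GE) {c : ℕ} [Fact c.Prime] {N : ℕ} (hN : 2 ≤ N)
    (κ : Type) [Field κ] [Fintype κ] [CharP κ c] {F : ℕ} (hF : Fintype.card κ = c ^ F)
    {z : κ} (hz : IsPrimitiveRoot z N) {E : Type} [Field E] [CharZero E] [IsAlgClosed E]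
    {μ : E} (hμ : IsPrimitiveRoot μ N)
    {D : ℕ} (hD : 1 ≤ D) {ι : Type} [Fintype ι] (l : ι → κ) (f : ι → κ[X])
    (hf : ∀ i, (f i).natDegree ≤ D) (e : ι → ℕ) (he : ∀ i, e i < N) (e0 : ℕ) (he0 : e0 < N)
    {j : ℕ} (hj : j.Coprime N)
    (hjd : D * ∑ i, ∑ s ∈ range F, (j * e i * c ^ s) % N + ∑ s ∈ range F, (j * e0 * c ^ s) % N
      < F * N) {V : Type} [AddCommGroup V] [Module E V] [FiniteDimensional E V]
    (Φ : Module.End E V)
    (hΦ : ∀ (L : Type) [Field L] [Fintype L] [Algebra κ L],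
      LinearMap.trace E V (Φ ^ Module.finrank κ L)
        = gSum L E N (fun i => algebraMap κ L (l i)) (fun i => (f i).map (algebraMap κ L)) e e0
          (algebraMap κ L z) μ)
    (M : ℕ) (hM : 0 < M) (v : V) (hv : (Φ ^ M) v = (Fintype.card κ : E) ^ M • v) : v = 0 := by
  classical
  by_contra hv0
  have hTE : TE := Pool.Agent.W800.HA.TE.main
  have hq : (Fintype.card κ : E) ≠ 0 := by exact_mod_cast Fintype.card_ne_zero
  obtain ⟨e', he', hem⟩ : ∃ e' : E, Module.End.HasEigenvalue Φ e' ∧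
      e' ^ M = (Fintype.card κ : E) ^ M := by
    have h1 : Module.End.HasEigenvalue (Φ ^ M) ((Fintype.card κ : E) ^ M) :=
      Module.End.hasEigenvalue_of_hasEigenvector (x := v)
        ⟨by rw [Module.End.mem_eigenspace_iff, hv], hv0⟩
    have h2 : (Fintype.card κ : E) ^ M ∈ spectrum E (Φ ^ M) :=
      Module.End.hasEigenvalue_iff_mem_spectrum.mp h1
    rw [spectrum.map_pow_of_pos Φ hM] at h2
    obtain ⟨e', he', hem⟩ := h2
    exact ⟨e', Module.End.hasEigenvalue_iff_mem_spectrum.mpr he', hem⟩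
  have he0' : e' ≠ 0 := by
    rintro rfl
    rw [zero_pow (by omega)] at hem
    exact pow_ne_zero M hq hem.symm
  obtain ⟨S, mult, hS, hSe, htr⟩ := hTE E V Φ
  have heS := hSe e' he0' he'
  set A : Multiset E := ∑ a ∈ S, Multiset.replicate (mult a) a with hA
  have hAsum : ∀ n : ℕ, (A.map fun x => x ^ n).sum = ∑ a ∈ S, (mult a : E) * a ^ n := by
    intro n
    have h1 : (A.map fun x => x ^ n).sum
        = (Multiset.sumAddMonoidHom.comp (Multiset.mapAddMonoidHom fun x : E => x ^ n)) A := rfl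
    rw [h1, hA, map_sum]
    refine sum_congr rfl fun a _ => ?_
    rw [AddMonoidHom.comp_apply, Multiset.coe_mapAddMonoidHom, Multiset.coe_sumAddMonoidHom,
      Multiset.map_replicate, Multiset.sum_replicate, nsmul_eq_mul]
  refine g_nonvanish hGN hONE hGE hN κ hF hz hμ hD l f hf e he e0 he0 hj hjd A ?_ e' ?_ M hM hem
  · intro L _ _ _
    have hL : 1 ≤ Module.finrank κ L := by
      have : Module.Finite κ L := .of_finite
      exact Module.finrank_pos
    rw [hAsum, ← htr _ hL, hΦ L]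
  · rw [hA, Multiset.mem_sum]
    exact ⟨e', heS, Multiset.mem_replicate.mpr ⟨(hS e' heS).2.ne', rfl⟩⟩

/-- No vector is multiplied by `ε` under a subgroup of finite index, if this holds for the powers
of one element on every part. -/
theorem decomp {E : Type} [Field E] {G : Type} [Group G] {V : Type} [AddCommGroup V] [Module E V]
    (ρ : Representation E G V) {X : Type} [Fintype X] [DecidableEq X] (W : X → Submodule E V)
    (hW : DirectSum.IsInternal W) (hstab : ∀ χ g, ∀ v ∈ W χ, ρ g v ∈ W χ) (φ : G) (q : E)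
    (h : ∀ χ, ∀ M : ℕ, 0 < M → ∀ w : W χ,
      (((ρ φ).restrict (hstab χ φ)) ^ M) w = q ^ M • w → w = 0)
    (ε : G →* E) (hε : ε φ = q)
    (H : Subgroup G) (hH : H.FiniteIndex) (v : V) (hv : ∀ g ∈ H, ρ g v = ε g • v) : v = 0 := by
  classical
  obtain ⟨m, hm, hmH⟩ : ∃ m : ℕ, 0 < m ∧ φ ^ m ∈ H :=
    ⟨_, Nat.factorial_pos H.index, Subgroup.pow_mem_of_index_ne_zero_of_dvd
      hH.index_ne_zero φ (fun i hi hi' => Nat.dvd_factorial hi hi')⟩
  have hfix := hv _ hmH
  rw [map_pow, map_pow, hε] at hfix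
  obtain ⟨w, hw⟩ : ∃ w : (Π₀ χ, W χ), DirectSum.coeAddMonoidHom W w = v := hW.surjective v
  have hpow : ∀ (χ : X) (n : ℕ) (u : W χ),
      ((((ρ φ).restrict (hstab χ φ)) ^ n) u : V) = (ρ φ ^ n) (u : V) := by
    intro χ n
    induction n with
    | zero => intro u; rfl
    | succ n ih =>
      intro u
      rw [pow_succ, Module.End.mul_apply, ih, pow_succ, Module.End.mul_apply]
      rfl
  set w' : (Π₀ χ, W χ) := DFinsupp.mapRange
    (fun χ u => (((ρ φ).restrict (hstab χ φ)) ^ m) u) (fun χ => map_zero _) w with hw'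
  set w'' : (Π₀ χ, W χ) := DFinsupp.mapRange
    (fun χ (u : W χ) => q ^ m • u) (fun χ => smul_zero _) w with hw''
  have h1 : DirectSum.coeAddMonoidHom W w' = q ^ m • v := by
    rw [← hfix, ← hw]
    rw [DirectSum.coeAddMonoidHom_eq_dfinsuppSum, DirectSum.coeAddMonoidHom_eq_dfinsuppSum]
    rw [DFinsupp.sum_mapRange_index (fun _ => rfl)]
    rw [DFinsupp.sum, DFinsupp.sum, map_sum]
    exact Finset.sum_congr rfl fun χ _ => hpow χ m (w χ)
  have h1' : DirectSum.coeAddMonoidHom W w'' = q ^ m • v := by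
    rw [← hw]
    rw [DirectSum.coeAddMonoidHom_eq_dfinsuppSum, DirectSum.coeAddMonoidHom_eq_dfinsuppSum]
    rw [DFinsupp.sum_mapRange_index (fun _ => rfl)]
    rw [DFinsupp.sum, DFinsupp.sum, Finset.smul_sum]
    rfl
  have h2 : w' = w'' := hW.injective (h1.trans h1'.symm)
  have h3 : ∀ χ, w χ = 0 := by
    intro χ
    have h4 : (((ρ φ).restrict (hstab χ φ)) ^ m) (w χ) = q ^ m • w χ := by
      have h5 := congrArg (fun u : (Π₀ χ, W χ) => u χ) h2
      simpa [hw', hw''] using h5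
    exact h χ m hm (w χ) h4
  rw [← hw, show w = 0 from DFinsupp.ext h3, map_zero]

end Pool.Agent.W528.HF
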