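import Pool.Agent.W528.HF.Stm
import Pool.Agent.W528.HF.Op
import Pool.Agent.W528.HD.Fin

/-!
# Further families: the final theorems
-/

set_option autoImplicit false

namespace Pool.Agent.W528.HF

open Finset Polynomial Pool.Agent.W528.HA Pool.Agent.W528.HB Pool.Agent.W528.HD

/-- `∏ (1 - x T)` over all `x ∈ A j s`, `0 < j < n` prime to `n`, `0 ≤ s < r`. -/
noncomputable def newPoly {E : Type} [Field E] (n r : ℕ) (A : ℕ → ℕ → Multiset E) : E[X] :=
  ∏ j ∈ (Ico 1 n).filter (fun j => j.Coprime n), ∏ s ∈ range r,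
    ((A j s).map fun x => 1 - C x * X).prod

lemma eval_newPoly_ne {E : Type} [Field E] (n r : ℕ) (A : ℕ → ℕ → Multiset E) {q : E} (hq : q ≠ 0)
    (h : ∀ j s, 0 < j → j < n → j.Coprime n → s < r → ∀ x ∈ A j s, ∀ M : ℕ, 0 < M →
      x ^ M ≠ q ^ M)
    (ζ : E) (M : ℕ) (hM : 0 < M) (hζ : ζ ^ M = 1) :
    (newPoly n r A).eval (ζ * q⁻¹) ≠ 0 := by
  classical
  intro h0
  unfold newPoly at h0
  rw [eval_prod, prod_eq_zero_iff] at h0
  obtain ⟨j, hj, h0⟩ := h0
  rw [eval_prod, prod_eq_zero_iff] at h0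
  obtain ⟨s, hs, h0⟩ := h0
  rw [eval_multiset_prod, Multiset.prod_eq_zero_iff, Multiset.map_map, Multiset.mem_map] at h0
  obtain ⟨x, hx, h0⟩ := h0
  rw [mem_filter, mem_Ico] at hj
  simp only [Function.comp, eval_sub, eval_one, eval_mul, eval_C, eval_X] at h0
  have h1 : x * ζ = q := by
    have h2 : x * (ζ * q⁻¹) = 1 := (sub_eq_zero.mp h0).symm
    field_simp at h2
    linear_combination h2
  apply h j s hj.1.1 hj.1.2 hj.2 (mem_range.mp hs) x hx M hM
  rw [← h1, mul_pow, hζ, mul_one]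

theorem fin_new (hGN : GN) (hONE : ONE) (hGE : GE) (hAG : AG) (hPN : PN)
    {n r c D g : ℕ} (hn : n = ∑ i ∈ range g, c ^ i) (hr : 0 < r) (hrn : r.Coprime n)
    [Fact c.Prime] (κ : Type) [Field κ] [Fintype κ] [CharP κ c]
    {z : κ} (hz : IsPrimitiveRoot z (n * r)) {E : Type} [Field E] [CharZero E] [IsAlgClosed E]
    {μ : E} (hμ : IsPrimitiveRoot μ (n * r)) {m : ℕ} (hD : 1 ≤ D) (f : Fin m → κ[X])
    (hf : ∀ i, (f i).natDegree ≤ D)
    (a : Fin m → ℕ) (ha : ∀ i, 0 < a i ∧ (a i).Coprime n) (ha2 : 2 * D * ∑ i, a i < g)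
    (A : ℕ → ℕ → Multiset E)
    (hA : ∀ j s, 0 < j → j < n → j.Coprime n → s < r → IsPolyL κ n r f a z μ j s (A j s)) :
    (∀ (L : Type) [Field L] [Fintype L] [Algebra κ L],
      ∑ j ∈ Ico 1 n, ∑ s ∈ range r,
          polySum L E n r (fun i => (f i).map (algebraMap κ L)) a (algebraMap κ L z) μ j s
        = (polyPoints L n r (fun i => (f i).map (algebraMap κ L)) a : E)
          - (Fintype.card L : E) ^ 2) ∧
    ∀ (ζ : E) (M : ℕ), 0 < M → ζ ^ M = 1 →
      (newPoly n r A).eval (ζ * (Fintype.card κ : E)⁻¹) ≠ 0 := by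
  classical
  have hc : c.Prime := Fact.out
  obtain ⟨F, hF0, hF⟩ := FiniteField.card κ c
  have hF0' : 0 < (F : ℕ) := F.2
  have hn0 : 0 < n := by
    rw [hn]
    exact sum_pos (fun i _ => pow_pos hc.pos i) ⟨0, mem_range.mpr (by omega)⟩
  refine ⟨?_, ?_⟩
  · intro L _ _ _
    exact hPN L n r (algebraMap κ L z) hn0 hr hrn
      (hz.map_of_injective (algebraMap κ L).injective) E μ hμ m _ a ha
  · refine eval_newPoly_ne n r A (by exact_mod_cast Fintype.card_ne_zero) ?_
    intro j s hj0 hjn hjc hs x hx M hM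
    have hN : 2 ≤ n * r := le_trans (by omega : 2 ≤ n) (Nat.le_mul_of_pos_right n hr)
    have hNF : n * r ∣ c ^ (F : ℕ) - 1 := by
      rw [← hF]
      exact dvd_card_of_root hz (by omega)
    obtain ⟨j', hj', hsum⟩ := hAG n r c F D g hc hn hr hrn hNF hF0' m a (fun i => (ha i).1) ha2 hD
      j s hjc hjn hs
    refine g_nonvanish hGN hONE hGE hN κ hF hz hμ hD (fun _ : Fin m => (1 : κ)) (fun i => -(f i))
      (fun i => by rw [natDegree_neg]; exact hf i) (fun i => r * (j * a i % n)) ?_ (n * s) ?_ hj'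
      hsum (A j s) ?_ x hx M hM
    · intro i
      rw [mul_comm n r]
      exact Nat.mul_lt_mul_of_pos_left (Nat.mod_lt _ hn0) hr
    · exact Nat.mul_lt_mul_of_pos_left hs hn0
    · intro L _ _ _
      rw [hA j s hj0 hjn hjc hs L, polySum_eq]
      simp only [Polynomial.map_neg, map_one]

/-- The traces of the powers of `Φ` are the sums `polySum`. -/
def PolyTrace (κ : Type) [Field κ] [Fintype κ] {E : Type} [Field E] (n r : ℕ) {m : ℕ}
    (f : Fin m → κ[X]) (a : Fin m → ℕ) (z : κ) (μ : E) (j s : ℕ) {W : Type} [AddCommGroup W]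
    [Module E W] (Φ : Module.End E W) : Prop :=
  ∀ (L : Type) [Field L] [Fintype L] [Algebra κ L],
    LinearMap.trace E W (Φ ^ Module.finrank κ L)
      = polySum L E n r (fun i => (f i).map (algebraMap κ L)) a (algebraMap κ L z) μ j s

lemma coprime_of_primes {n a : ℕ} (ha : 0 < a) (h : ∀ l : ℕ, l.Prime → l ∣ n → a < l) :
    a.Coprime n := by
  rw [Nat.coprime_iff_gcd_eq_one]
  by_contra h1
  obtain ⟨l, hl, hl2⟩ := Nat.exists_prime_and_dvd h1
  have h2 := h l hl (hl2.trans (Nat.gcd_dvd_right a n))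
  have h3 := Nat.le_of_dvd ha (hl2.trans (Nat.gcd_dvd_left a n))
  omega

theorem fin_rep (hGN : GN) (hONE : ONE) (hGE : GE) (hAN : AN) (hPN : PN)
    {n r c D : ℕ} (hn : 2 ≤ n) (hr : 0 < r) (hrn : r.Coprime n)
    [Fact c.Prime] (hcr : ¬ c ∣ r) (hnc : n ∣ c - 1)
    (κ : Type) [Field κ] [Fintype κ] [CharP κ c]
    {z : κ} (hz : IsPrimitiveRoot z (n * r)) {E : Type} [Field E] [CharZero E] [IsAlgClosed E]
    {μ : E} (hμ : IsPrimitiveRoot μ (n * r)) {m : ℕ} (hD : 1 ≤ D) (f : Fin m → κ[X])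
    (hf : ∀ i, (f i).natDegree ≤ D)
    (a : Fin m → ℕ) (ha : ∀ i, 0 < a i)
    (ha2 : ∀ l : ℕ, l.Prime → l ∣ n → 2 * D * ∑ i, a i < l)
    {G : Type} [Group G] {V : Type} [AddCommGroup V] [Module E V] [FiniteDimensional E V]
    (ρ : Representation E G V) (W : Fin (n - 1) × Fin r → Submodule E V)
    (hW : DirectSum.IsInternal W) (hstab : ∀ χ g, ∀ v ∈ W χ, ρ g v ∈ W χ)
    (φ : G) (hφ : ∀ χ, PolyTrace κ n r f a z μ (χ.1 + 1) χ.2 ((ρ φ).restrict (hstab χ φ))) :
    (∀ (L : Type) [Field L] [Fintype L] [Algebra κ L],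
      LinearMap.trace E V ((ρ φ) ^ Module.finrank κ L)
        = (polyPoints L n r (fun i => (f i).map (algebraMap κ L)) a : E)
          - (Fintype.card L : E) ^ 2) ∧
    ∀ (ε : G →* E), ε φ = Fintype.card κ → ∀ (H : Subgroup G), H.FiniteIndex → ∀ v : V,
      (∀ g ∈ H, ρ g v = ε g • v) → v = 0 := by
  classical
  have hc : c.Prime := Fact.out
  obtain ⟨F, hF0, hF⟩ := FiniteField.card κ c
  have hF0' : 0 < (F : ℕ) := F.2
  have hn0 : 0 < n := by omega
  have hN : 2 ≤ n * r := le_trans hn (Nat.le_mul_of_pos_right n hr)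
  have hsingle : ∀ i, a i ≤ 2 * D * ∑ i, a i := by
    intro i
    exact (single_le_sum (f := a) (fun _ _ => Nat.zero_le _) (mem_univ i)).trans
      (Nat.le_mul_of_pos_left _ (by omega))
  have hcop : ∀ i, (a i).Coprime n := fun i => coprime_of_primes (ha i) fun l hl hln =>
    lt_of_le_of_lt (hsingle i) (ha2 l hl hln)
  refine ⟨?_, ?_⟩
  · intro L _ _ _
    have hzL : IsPrimitiveRoot (algebraMap κ L z) (n * r) :=
      hz.map_of_injective (algebraMap κ L).injective
    rw [← hPN L n r (algebraMap κ L z) hn0 hr hrn hzL E μ hμ m _ a fun i => ⟨ha i, hcop i⟩]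
    have hmaps : ∀ χ, Set.MapsTo (ρ φ ^ Module.finrank κ L) (W χ) (W χ) := by
      intro χ
      have : ∀ k : ℕ, Set.MapsTo (ρ φ ^ k) (W χ) (W χ) := by
        intro k
        induction k with
        | zero => intro v hv; simpa using hv
        | succ k ih =>
          intro v hv
          rw [pow_succ, Module.End.mul_apply]
          exact ih (hstab χ φ v hv)
      exact this _
    rw [LinearMap.trace_eq_sum_trace_restrict hW hmaps]
    rw [Fintype.sum_prod_type]
    have h1 : ∀ χ : Fin (n - 1) × Fin r,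
        LinearMap.trace E (W χ) ((ρ φ ^ Module.finrank κ L).restrict (hmaps χ))
          = polySum L E n r (fun i => (f i).map (algebraMap κ L)) a (algebraMap κ L z) μ
            (χ.1 + 1) χ.2 := by
      intro χ
      rw [← hφ χ L]
      congr 1
      have : ∀ (k : ℕ) (hk : Set.MapsTo (ρ φ ^ k) (W χ) (W χ)),
          (ρ φ ^ k).restrict hk = ((ρ φ).restrict (hstab χ φ)) ^ k := by
        intro k hk
        ext v
        have h2 : ∀ (k : ℕ) (v : W χ),
            ((((ρ φ).restrict (hstab χ φ)) ^ k) v : V) = (ρ φ ^ k) (v : V) := by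
          intro k
          induction k with
          | zero => intro v; rfl
          | succ k ih =>
            intro v
            rw [pow_succ, Module.End.mul_apply, ih, pow_succ, Module.End.mul_apply]
            rfl
        rw [h2]
        rfl
      exact this _ _
    rw [sum_congr rfl fun i _ => sum_congr rfl fun s _ => h1 (i, s)]
    simp only
    have h3 : ∀ g : ℕ → E, ∑ j ∈ Ico 1 n, g j = ∑ i : Fin (n - 1), g (i + 1) := by
      intro g
      rw [Finset.sum_Ico_eq_sum_range, ← Fin.sum_univ_eq_sum_range (fun i => g (1 + i))]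
      exact sum_congr rfl fun i _ => by rw [add_comm]
    rw [h3]
    refine sum_congr rfl fun i _ => ?_
    exact (Fin.sum_univ_eq_sum_range (fun s => polySum L E n r
      (fun i => (f i).map (algebraMap κ L)) a (algebraMap κ L z) μ (i + 1) s) r)
  · intro ε hε H hH v hv
    refine decomp ρ W hW hstab φ (Fintype.card κ : E) ?_ ε hε H hH v hv
    rintro ⟨i, s⟩ M hM w hw
    have hi := i.2
    obtain ⟨j', hj', hsum⟩ := hAN n r c F D hn hr hrn hc hcr hnc hF0' m a ha ha2 hD (i + 1) s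
      (by omega) (by omega) s.2
    refine g_op hGN hONE hGE hN κ hF hz hμ hD (fun _ : Fin m => (1 : κ)) (fun i => -(f i))
      (fun i => by rw [natDegree_neg]; exact hf i) (fun k => r * ((i + 1) * a k % n)) ?_
      (n * s) ?_ hj' hsum ((ρ φ).restrict (hstab (i, s) φ)) ?_ M hM w hw
    · intro k
      rw [mul_comm n r]
      exact Nat.mul_lt_mul_of_pos_left (Nat.mod_lt _ hn0) hr
    · exact Nat.mul_lt_mul_of_pos_left s.2 hn0
    · intro L _ _ _
      rw [hφ (i, s) L, polySum_eq]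
      simp only [Polynomial.map_neg, map_one]

/-- The traces of the powers of `Φ` are the sums `planeSum`. -/
def IsPlaneL (κ : Type) [Field κ] [Fintype κ] {E : Type} [Field E] (p e r : ℕ) {m : ℕ}
    (α β γ : Fin m → κ) (a : Fin m → ℕ) (z : κ) (μ : E) (j s₁ s₂ : ℕ) (A : Multiset E) : Prop :=
  ∀ (L : Type) [Field L] [Fintype L] [Algebra κ L],
    (A.map fun x => x ^ Module.finrank κ L).sum
      = planeSum L E p e r (fun i => algebraMap κ L (α i)) (fun i => algebraMap κ L (β i))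
        (fun i => algebraMap κ L (γ i)) a (algebraMap κ L z) μ j s₁ s₂

lemma planeSum_eq {L : Type} [Field L] [Fintype L] {R : Type} [CommRing R] (p e r : ℕ) {m : ℕ}
    (α β γ : Fin m → L) (a : Fin m → ℕ) (z : L) (μ : R) (j s₁ s₂ : ℕ) :
    planeSum L R p e r α β γ a z μ j s₁ s₂
      = gSum L R (p * e * r) (Sum.elim α (fun _ : Unit => (1 : L)))
        (Sum.elim (fun i => C (β i) * X + C (γ i)) (fun _ => 0))
        (Sum.elim (fun i => e * r * (j * a i % p)) (fun _ => p * r * s₁)) (p * e * s₂) z μ := by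
  unfold planeSum gSum
  refine sum_congr rfl fun x _ => sum_congr rfl fun t _ => ?_
  rw [Fintype.prod_sum_type]
  simp only [Sum.elim_inl, Sum.elim_inr, eval_add, eval_mul, eval_C, eval_X, eval_zero, one_mul,
    add_zero, Finset.univ_unique, Finset.prod_const, Finset.card_singleton, pow_one, add_assoc]

theorem fin_plane (hGN : GN) (hONE : ONE) (hGE : GE) (hAB : AB) (hPB : PB)
    {p e r c : ℕ} (hp : p.Prime) (he : 0 < e) (hr : 0 < r) (hep : e.Coprime p) (hrp : r.Coprime p)
    (her : e.Coprime r) [Fact c.Prime] (hc : p * e * r ∣ c - 1)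
    (κ : Type) [Field κ] [Fintype κ] [CharP κ c]
    {z : κ} (hz : IsPrimitiveRoot z (p * e * r)) {E : Type} [Field E] [CharZero E] [IsAlgClosed E]
    {μ : E} (hμ : IsPrimitiveRoot μ (p * e * r)) {m : ℕ} (α β γ : Fin m → κ)
    (a : Fin m → ℕ) (ha : ∀ i, 0 < a i) (ha2 : 6 * ∑ i, a i < p)
    (A : ℕ → ℕ → ℕ → Multiset E)
    (hA : ∀ j s₁ s₂, 0 < j → j < p → s₁ < e → s₂ < r →
      IsPlaneL κ p e r α β γ a z μ j s₁ s₂ (A j s₁ s₂)) :
    (∀ (L : Type) [Field L] [Fintype L] [Algebra κ L],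
      ∑ j ∈ Ico 1 p, ∑ s₁ ∈ range e, ∑ s₂ ∈ range r,
          ((A j s₁ s₂).map fun x => x ^ Module.finrank κ L).sum
        = (planePoints L p e r (fun i => algebraMap κ L (α i)) (fun i => algebraMap κ L (β i))
            (fun i => algebraMap κ L (γ i)) a : E) - (Fintype.card L : E) ^ 2) ∧
    ∀ j s₁ s₂, 0 < j → j < p → s₁ < e → s₂ < r → ∀ x ∈ A j s₁ s₂, ∀ M : ℕ, 0 < M →
      x ^ M ≠ (Fintype.card κ : E) ^ M := by
  classical
  have hcp : c.Prime := Fact.out
  obtain ⟨F, hF0, hF⟩ := FiniteField.card κ c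
  have hF0' : 0 < (F : ℕ) := F.2
  have hN : 2 ≤ p * e * r := by
    rw [mul_assoc]
    exact le_trans hp.two_le (Nat.le_mul_of_pos_right p (Nat.mul_pos he hr))
  refine ⟨?_, ?_⟩
  · intro L _ _ _
    have hzL : IsPrimitiveRoot (algebraMap κ L z) (p * e * r) :=
      hz.map_of_injective (algebraMap κ L).injective
    have hap : ∀ i, 0 < a i ∧ a i < p := by
      intro i
      refine ⟨ha i, ?_⟩
      have h1 := single_le_sum (f := a) (fun _ _ => Nat.zero_le _) (mem_univ i)
      omega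
    rw [← hPB L p e r (algebraMap κ L z) hp he hr hzL E μ hμ m _ _ _ a hap]
    refine sum_congr rfl fun j hj => sum_congr rfl fun s₁ hs₁ => sum_congr rfl fun s₂ hs₂ => ?_
    rw [mem_Ico] at hj
    exact hA j s₁ s₂ hj.1 hj.2 (mem_range.mp hs₁) (mem_range.mp hs₂) L
  · intro j s₁ s₂ hj0 hjp hs₁ hs₂ x hx M hM
    obtain ⟨j', hj', hsum⟩ := hAB p e r c F hp he hr hep hrp her hcp hc hF0' m a ha ha2 j s₁ s₂ hj0
      hjp hs₁ hs₂
    refine g_nonvanish hGN hONE hGE hN κ hF hz hμ (le_refl 1)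
      (Sum.elim α (fun _ : Unit => (1 : κ)))
      (Sum.elim (fun i => C (β i) * X + C (γ i)) (fun _ => 0)) ?_
      (Sum.elim (fun i => e * r * (j * a i % p)) (fun _ => p * r * s₁)) ?_ (p * e * s₂) ?_ hj'
      ?_ (A j s₁ s₂) ?_ x hx M hM
    · rintro (i | i)
      · exact (natDegree_linear_le)
      · simp
    · rintro (i | i)
      · rw [Sum.elim_inl, show p * e * r = e * r * p from by ring]
        exact Nat.mul_lt_mul_of_pos_left (Nat.mod_lt _ hp.pos) (Nat.mul_pos he hr)
      · rw [Sum.elim_inr, show p * e * r = p * r * e from by ring]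
        exact Nat.mul_lt_mul_of_pos_left hs₁ (Nat.mul_pos hp.pos hr)
    · exact Nat.mul_lt_mul_of_pos_left hs₂ (Nat.mul_pos hp.pos he)
    · rw [Fintype.sum_sum_type]
      simp only [Sum.elim_inl, Sum.elim_inr, Finset.univ_unique, Finset.sum_const,
        Finset.card_singleton, one_mul, one_smul]
      exact hsum
    · intro L _ _ _
      rw [hA j s₁ s₂ hj0 hjp hs₁ hs₂ L, planeSum_eq]
      congr 1
      · funext i
        rcases i with i | i
        · simp
        · simp
      · funext i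
        rcases i with i | i
        · simp
        · simp

end Pool.Agent.W528.HF
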