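import Pool.Agent.W528.HD.Stm

/-!
# Further families: statements of the parts
-/

set_option autoImplicit false

namespace Pool.Agent.W528.HF

open Finset Polynomial Pool.Agent.W528.HA Pool.Agent.W528.HD

/-- The sum of all character sums, `n` not nec. prime. -/
def PN : Prop :=
  ∀ (L : Type) [Field L] [Fintype L] (n r : ℕ) (z : L), 0 < n → 0 < r → r.Coprime n →
    IsPrimitiveRoot z (n * r) → ∀ (E : Type) [Field E] [CharZero E] (μ : E),
    IsPrimitiveRoot μ (n * r) → ∀ (m : ℕ) (f : Fin m → L[X]) (a : Fin m → ℕ),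
    (∀ i, 0 < a i ∧ (a i).Coprime n) →
    ∑ j ∈ Ico 1 n, ∑ s ∈ range r, polySum L E n r f a z μ j s
      = (polyPoints L n r f a : E) - (Fintype.card L : E) ^ 2

/-- The arithmetic of the exponents for `n = 1 + c + ... + c ^ (g - 1)`. -/
def AG : Prop :=
  ∀ (n r c F D g : ℕ), c.Prime → n = ∑ i ∈ range g, c ^ i → 0 < r → r.Coprime n →
    n * r ∣ c ^ F - 1 → 0 < F → ∀ (m : ℕ) (a : Fin m → ℕ), (∀ i, 0 < a i) →
    2 * D * ∑ i, a i < g → 1 ≤ D → ∀ j s : ℕ, j.Coprime n → j < n → s < r →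
      ∃ j' : ℕ, j'.Coprime (n * r) ∧
        D * ∑ i, ∑ e ∈ range F, (j' * (r * (j * a i % n)) * c ^ e) % (n * r)
          + ∑ e ∈ range F, (j' * (n * s) * c ^ e) % (n * r) < F * (n * r)

/-- The arithmetic of the exponents for composite `n`. -/
def AN : Prop :=
  ∀ (n r c F D : ℕ), 2 ≤ n → 0 < r → r.Coprime n → c.Prime → ¬ c ∣ r → n ∣ c - 1 → 0 < F →
    ∀ (m : ℕ) (a : Fin m → ℕ), (∀ i, 0 < a i) →
    (∀ l : ℕ, l.Prime → l ∣ n → 2 * D * ∑ i, a i < l) → 1 ≤ D →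
    ∀ j s : ℕ, 0 < j → j < n → s < r →
      ∃ j' : ℕ, j'.Coprime (n * r) ∧
        D * ∑ i, ∑ e ∈ range F, (j' * (r * (j * a i % n)) * c ^ e) % (n * r)
          + ∑ e ∈ range F, (j' * (n * s) * c ^ e) % (n * r) < F * (n * r)

/-- The sum over `(x, t) ∈ L²` of the value at
`∏ (α_i x + β_i t + γ_i) ^ (e r (j a_i mod p)) * x ^ (p r s₁) * t ^ (p e s₂)` of the character of
order `p e r` of `L` belonging to `z ↦ μ`. -/
noncomputable def planeSum (L : Type) [Field L] [Fintype L] (R : Type) [CommRing R] (p e r : ℕ)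
    {m : ℕ} (α β γ : Fin m → L) (a : Fin m → ℕ) (z : L) (μ : R) (j s₁ s₂ : ℕ) : R :=
  ∑ x : L, ∑ t : L, kv (p * e * r) z μ
    (((∏ i, (α i * x + β i * t + γ i) ^ (e * r * (j * a i % p))) * x ^ (p * r * s₁)
        * t ^ (p * e * s₂)) ^ ((Fintype.card L - 1) / (p * e * r)))

/-- The number of points over `L` of the affine surface
`y ^ p = ∏ (α_i x ^ e + β_i u ^ r + γ_i) ^ a_i`. -/
noncomputable def planePoints (L : Type) [Field L] (p e r : ℕ) {m : ℕ} (α β γ : Fin m → L)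
    (a : Fin m → ℕ) : ℕ :=
  Set.ncard {v : L × L × L | v.2.2 ^ p = ∏ i, (α i * v.1 ^ e + β i * v.2.1 ^ r + γ i) ^ a i}

/-- The sum of all character sums. -/
def PB : Prop :=
  ∀ (L : Type) [Field L] [Fintype L] (p e r : ℕ) (z : L), p.Prime → 0 < e → 0 < r →
    IsPrimitiveRoot z (p * e * r) → ∀ (E : Type) [Field E] [CharZero E] (μ : E),
    IsPrimitiveRoot μ (p * e * r) → ∀ (m : ℕ) (α β γ : Fin m → L) (a : Fin m → ℕ),
    (∀ i, 0 < a i ∧ a i < p) →
    ∑ j ∈ Ico 1 p, ∑ s₁ ∈ range e, ∑ s₂ ∈ range r, planeSum L E p e r α β γ a z μ j s₁ s₂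
      = (planePoints L p e r α β γ a : E) - (Fintype.card L : E) ^ 2

/-- The arithmetic of the exponents. -/
def AB : Prop :=
  ∀ (p e r c F : ℕ), p.Prime → 0 < e → 0 < r → e.Coprime p → r.Coprime p → e.Coprime r →
    c.Prime → p * e * r ∣ c - 1 → 0 < F → ∀ (m : ℕ) (a : Fin m → ℕ), (∀ i, 0 < a i) →
    6 * ∑ i, a i < p → ∀ j s₁ s₂ : ℕ, 0 < j → j < p → s₁ < e → s₂ < r →
      ∃ j' : ℕ, j'.Coprime (p * e * r) ∧
        ∑ i, ∑ b ∈ range F, (j' * (e * r * (j * a i % p)) * c ^ b) % (p * e * r)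
          + ∑ b ∈ range F, (j' * (p * r * s₁) * c ^ b) % (p * e * r)
          + ∑ b ∈ range F, (j' * (p * e * s₂) * c ^ b) % (p * e * r) < F * (p * e * r)

end Pool.Agent.W528.HF
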